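import Pool.Agent.helper32.NN.Spec

/-!
# BAD: arithmetic of positive reals
-/

set_option autoImplicit false

namespace Pool.Agent.NN

theorem BAD_repr (D : Finset ℝ) (x : ℝ) (hx : x ∈ AddSubmonoid.closure (D : Set ℝ)) :
    ∃ f : ℝ → ℕ, x = ∑ d ∈ D, (f d : ℝ) * d := by
  classical
  induction hx using AddSubmonoid.closure_induction with
  | mem y hy =>
    refine ⟨fun d => if d = y then 1 else 0, ?_⟩
    rw [Finset.sum_eq_single y]
    · simp
    · intro b _ hb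
      simp [hb]
    · intro h
      exact absurd hy h
  | zero => exact ⟨fun _ => 0, by simp⟩
  | add y z _ _ h1 h2 =>
    obtain ⟨f, hf⟩ := h1
    obtain ⟨g, hg⟩ := h2
    refine ⟨fun d => f d + g d, ?_⟩
    rw [hf, hg, ← Finset.sum_add_distrib]
    refine Finset.sum_congr rfl fun d _ => ?_
    push_cast
    ring

theorem BAD_fin (D : Finset ℝ) (δ : ℝ) (hD : ∀ d ∈ D, 0 < d) :
    {s : ℝ | s ∈ AddSubmonoid.closure (D : Set ℝ) ∧ s ≤ δ}.Finite := by
  classical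
  have h1 : {c : D → ℕ | ∀ d, c d ≤ ⌊δ / (d : ℝ)⌋₊}.Finite :=
    Set.Finite.pi' fun d => Set.finite_le_nat _
  refine (h1.image fun c => ∑ d : D, (c d : ℝ) * (d : ℝ)).subset ?_
  rintro s ⟨hs, hsδ⟩
  obtain ⟨f, hf⟩ := BAD_repr D s hs
  refine ⟨fun d => f d, ?_, ?_⟩
  · rintro ⟨d, hd⟩
    have hd0 := hD d hd
    refine Nat.le_floor ?_
    rw [le_div_iff₀ hd0]
    refine le_trans ?_ hsδ
    rw [hf]
    refine Finset.single_le_sum (f := fun d => (f d : ℝ) * d) (fun e he => ?_) hd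
    exact mul_nonneg (Nat.cast_nonneg _) (hD e he).le
  · change ∑ d : D, (f (d : ℝ) : ℝ) * (d : ℝ) = s
    rw [hf]
    exact Finset.sum_coe_sort D (fun d => (f d : ℝ) * d)

theorem BAD : BAD_stmt := by
  intro D δ ε hD hδ hε
  refine (((Set.finite_Icc 1 ⌊δ / ε⌋₊).image2 (fun (n : ℕ) (s : ℝ) => (δ - s) / n)
    (BAD_fin D δ hD))).subset ?_
  rintro d ⟨hd, n, hn, s, hs, he⟩
  have hn' : (1:ℝ) ≤ n := by exact_mod_cast hn
  have hs0 : 0 ≤ s := by
    obtain ⟨f, hf⟩ := BAD_repr D s hs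
    rw [hf]
    exact Finset.sum_nonneg fun e h => mul_nonneg (Nat.cast_nonneg _) (hD e h).le
  have hd0 : 0 < d := hε.trans_le hd
  have hnd : 0 ≤ n * d := by positivity
  refine ⟨n, ⟨hn, ?_⟩, s, ⟨hs, by linarith⟩, ?_⟩
  · refine Nat.le_floor ?_
    rw [le_div_iff₀ hε]
    have : (n:ℝ) * ε ≤ n * d := mul_le_mul_of_nonneg_left hd (by linarith)
    linarith
  · change (δ - s) / (n:ℝ) = d
    rw [div_eq_iff (by positivity)]
    linarith

end Pool.Agent.NN
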